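import Pool.Agent.H67.EG.P

set_option autoImplicit false

namespace Pool.Agent.Results.MP_744caf_al.CircularOrders

open Pool.Agent.H67.EG

theorem E_iter {G : Type} [Group G] (x y : G) (k : ℕ) : E x y k = (fun z : G => z⁻¹ * y⁻¹ * z * y)^[k] x := by
  induction k with
  | zero => rfl
  | succ k ih =>
    rw [Function.iterate_succ_apply', ← ih]
    rfl

/-- Let an n-Engel group G act on a circularly ordered set C by maps preserving the circular order. Then every finitely
generated perfect subgroup H of G fixes every point of C. -/
theorem result (n : ℕ) (G : Type) [Group G] (hE : ∀ x y : G, (fun z : G => z⁻¹ * y⁻¹ * z * y)^[n] x = 1)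
    (C : Type) [CircularOrder C] [MulAction G C]
    (hm : ∀ (g : G) (a b c : C), btw a b c → btw (g • a) (g • b) (g • c))
    (H : Subgroup G) (hH : H.FG) (hP : ⁅H, H⁆ = H) (h : G) (hh : h ∈ H) (a : C) : h • a = a := by
  have he : Eng G n := fun x y => (E_iter x y n).trans (hE x y)
  have hF : Group.FG H := (Group.fg_iff_subgroup_fg H).mpr hH
  have hc : commutator H = ⊤ := by
    apply Subgroup.map_injective H.subtype_injective
    rw [Subgroup.map_subtype_commutator, hP, ← MonoidHom.range_eq_map, Subgroup.range_subtype]
  exact circ_perfect (eng_subgroup he H) hc (C := C) (fun g a b c habc => hm g a b c habc) ⟨h, hh⟩ a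

end Pool.Agent.Results.MP_744caf_al.CircularOrders
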