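import Pool.Agent.H67.EG.P

set_option autoImplicit false

namespace Pool.Agent.Results.MP_744caf_al.LeftOrderable

open Pool.Agent.H67.EG

theorem E_iter {G : Type} [Group G] (x y : G) (k : ℕ) : E x y k = (fun z : G => z⁻¹ * y⁻¹ * z * y)^[k] x := by
  induction k with
  | zero => rfl
  | succ k ih =>
    rw [Function.iterate_succ_apply', ← ih]
    rfl

/-- Let an n-Engel group G act on a totally ordered set Ω by order preserving maps, let H be a finitely generated subgroup
of G and let a be a point of Ω moved by some element of H. Then there is a nontrivial homomorphism φ from H to the additive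
group of real numbers such that every h in H with φ(h) > 0 moves a up: a < h • a. -/
theorem result (n : ℕ) (G : Type) [Group G] (hE : ∀ x y : G, (fun z : G => z⁻¹ * y⁻¹ * z * y)^[n] x = 1)
    (Ω : Type) [LinearOrder Ω] [MulAction G Ω] (hm : ∀ (g : G) (a b : Ω), a ≤ b → g • a ≤ g • b)
    (H : Subgroup G) (hH : H.FG) (a : Ω) (ha : ∃ h ∈ H, h • a ≠ a) :
    ∃ φ : H →* Multiplicative ℝ, (∃ h : H, φ h ≠ 1) ∧ ∀ h : H, 1 < φ h → a < (h : G) • a := by
  have he : Eng G n := fun x y => (E_iter x y n).trans (hE x y)
  have : Group.FG H := (Group.fg_iff_subgroup_fg H).mpr hH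
  obtain ⟨h, hh, hha⟩ := ha
  exact real_onto (eng_subgroup he H) (Ω := Ω) (fun g a b hab => hm g a b hab) a ⟨⟨h, hh⟩, hha⟩

end Pool.Agent.Results.MP_744caf_al.LeftOrderable
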